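import Pool.Agent.Lib.TGL.GL
import Pool.Agent.Lib.TGL.Gal
import Pool.Agent.Lib.TG_h81.Proj
import Pool.Agent.Lib.TG_h81.Loc2
import Pool.Agent.Lib.TGB_h66.PDer
import Pool.Agent.Lib.LU1_h15.GalSep

/-!
# TANK G, TRACK L, row IND-B: field theory of the induction step
-/

set_option autoImplicit false

open Polynomial

namespace Pool.Agent.TGL2

open Pool.Agent.LU1 (FracIs fixO)
open Pool.Agent.TGL (FZ)
open Pool.Agent.TG (LB KB IsModel Fin')

universe u

/-! ### (b1) -/

section Gal

variable {k Ω : Type u} [Field k] [Field Ω] [Algebra k Ω]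

/-- A finite set of separable elements is contained in a finite Galois extension (`Ω` need not be
algebraic over `F`). -/
theorem exists_galois [IsAlgClosed Ω] (F : IntermediateField k Ω) (T : Finset Ω)
    (hsep : ∀ t ∈ T, IsSeparable F t) :
    ∃ N : IntermediateField F Ω, FiniteDimensional F N ∧ IsGalois F N ∧ ∀ t ∈ T, t ∈ N := by
  classical
  let P : Polynomial F := ∏ t ∈ T, minpoly F t
  have hP0 : P ≠ 0 := Finset.prod_ne_zero_iff.2 fun t ht => minpoly.ne_zero (hsep t ht).isIntegral
  have hspl : (P.map (algebraMap F Ω)).Splits := IsAlgClosed.splits _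
  have hS := IntermediateField.adjoin_rootSet_isSplittingField hspl
  let N : IntermediateField F Ω := IntermediateField.adjoin F (P.rootSet Ω)
  have hfd : FiniteDimensional F N := Polynomial.IsSplittingField.finiteDimensional N P
  have hn : Normal F N := Normal.of_isSplittingField P
  have hs : Algebra.IsSeparable F N := by
    rw [IntermediateField.isSeparable_adjoin_iff_isSeparable]
    intro x hx
    rw [Polynomial.mem_rootSet] at hx
    have h1 : ∏ t ∈ T, aeval x (minpoly F t) = 0 := by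
      rw [← map_prod]
      exact hx.2
    obtain ⟨t, ht, h2⟩ := Finset.prod_eq_zero_iff.1 h1
    have h3 : minpoly F x ∣ minpoly F t := minpoly.dvd F x h2
    exact (hsep t ht).of_dvd h3
  refine ⟨N, hfd, ⟨⟩, fun t ht => IntermediateField.subset_adjoin _ _ ?_⟩
  rw [Polynomial.mem_rootSet]
  refine ⟨hP0, ?_⟩
  rw [map_prod]
  exact Finset.prod_eq_zero ht (minpoly.aeval F t)

/-- **(b1)**. -/
theorem exists_gal [IsAlgClosed Ω] {F E : IntermediateField k Ω} (hFE : F ≤ E) (T : Finset Ω)
    (hTE : ∀ t ∈ T, t ∈ E) (hE : ∀ e ∈ E, e ∈ IntermediateField.adjoin F (T : Set Ω))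
    (hsep : ∀ e ∈ E, IsSeparable F e) :
    ∃ N : IntermediateField F Ω, FiniteDimensional F N ∧ IsGalois F N ∧ (∀ e ∈ E, e ∈ N) ∧
      ∃ H : Subgroup (N ≃ₐ[F] N), fixO F N H = E ∧
        ∀ σ, σ ∈ H ↔ ∀ e ∈ E, ∀ a : N, (a : Ω) = e → σ a = a := by
  obtain ⟨N, hfd, hg, hTN⟩ := exists_galois F T fun t ht => hsep t (hTE t ht)
  have hEN : ∀ e ∈ E, e ∈ N := by
    have h1 : IntermediateField.adjoin F (T : Set Ω) ≤ N := by
      rw [IntermediateField.adjoin_le_iff]
      exact fun t ht => hTN t ht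
    exact fun e he => h1 (hE e he)
  refine ⟨N, hfd, hg, hEN, ?_⟩
  let K1 : IntermediateField F Ω := IntermediateField.extendScalars hFE
  have hK1 : K1 ≤ N := fun g hg => hEN g hg
  let K2 : IntermediateField F N := IntermediateField.restrict hK1
  refine ⟨K2.fixingSubgroup, ?_, ?_⟩
  · unfold fixO
    rw [IsGalois.fixedField_fixingSubgroup]
    ext g
    rw [IntermediateField.mem_restrictScalars]
    constructor
    · rintro ⟨n, hn, rfl⟩
      exact (IntermediateField.mem_restrict hK1 n).1 hn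
    · intro hg
      exact ⟨⟨g, hEN g hg⟩, (IntermediateField.mem_restrict hK1 _).2 hg, rfl⟩
  · intro σ
    rw [IntermediateField.mem_fixingSubgroup_iff]
    constructor
    · intro h e he a ha
      exact h a ((IntermediateField.mem_restrict hK1 a).2 (by rw [ha]; exact he))
    · intro h a ha
      exact h a ((IntermediateField.mem_restrict hK1 a).1 ha) a rfl

end Gal

section Step

variable {k K Ω : Type u} [Field k] [Field K] [Algebra k K] [Field Ω] [Algebra k Ω]
  (ι : K →ₐ[k] Ω) {m : ℕ} (b : Fin m → K) (z : K)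

theorem map_le_fieldRange (E : IntermediateField k K) : E.map ι ≤ ι.fieldRange := by
  rintro _ ⟨a, -, rfl⟩
  exact ⟨a, rfl⟩

/-- **(b1')**. -/
theorem exists_gal' [IsAlgClosed Ω] (hfin : FiniteDimensional (KB k b z) K)
    (hsep : Algebra.IsSeparable (KB k b z) K) :
    ∃ N : IntermediateField ((KB k b z).map ι) Ω,
      FiniteDimensional ((KB k b z).map ι) N ∧ IsGalois ((KB k b z).map ι) N ∧
      (∀ e ∈ ι.fieldRange, e ∈ N) ∧ ∃ H : Subgroup (N ≃ₐ[(KB k b z).map ι] N),
        fixO ((KB k b z).map ι) N H = ι.fieldRange ∧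
        ∀ σ, σ ∈ H ↔ ∀ e ∈ ι.fieldRange, ∀ a : N, (a : Ω) = e → σ a = a := by
  classical
  let φ : KB k b z →+* ((KB k b z).map ι) :=
    { toFun := fun a => ⟨ι a, a, a.2, rfl⟩
      map_one' := Subtype.ext (map_one ι)
      map_zero' := Subtype.ext (map_zero ι)
      map_mul' := fun a c => Subtype.ext (map_mul ι _ _)
      map_add' := fun a c => Subtype.ext (map_add ι _ _) }
  have hφ : ∀ a, ((φ a : (KB k b z).map ι) : Ω) = ι a := fun _ => rfl
  let B := Module.finBasis (KB k b z) K
  refine exists_gal (map_le_fieldRange ι _) (Finset.univ.image fun i => ι (B i)) ?_ ?_ ?_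
  · intro t ht
    obtain ⟨i, -, rfl⟩ := Finset.mem_image.1 ht
    exact ⟨_, rfl⟩
  · rintro _ ⟨a, rfl⟩
    have h1 := B.sum_repr a
    have h2 : ι a = ∑ i, ((φ (B.repr a i) : (KB k b z).map ι) : Ω) * ι (B i) := by
      conv_lhs => rw [← h1]
      rw [map_sum]
      refine Finset.sum_congr rfl fun i _ => ?_
      rw [Algebra.smul_def, map_mul]
      rfl
    change ι a ∈ _
    rw [h2]
    refine sum_mem fun i _ => mul_mem ?_ ?_
    · exact IntermediateField.algebraMap_mem _ (φ (B.repr a i))
    · refine IntermediateField.subset_adjoin _ _ ?_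
      exact Finset.mem_coe.2 (Finset.mem_image_of_mem _ (Finset.mem_univ i))
  · rintro _ ⟨a, rfl⟩
    have h1 : IsSeparable (KB k b z) a := Algebra.IsSeparable.isSeparable _ a
    have h2 : aeval (ι a) ((minpoly (KB k b z) a).map φ) = 0 := by
      rw [aeval_def, eval₂_map]
      have h3 : (algebraMap ((KB k b z).map ι) Ω).comp φ =
          (ι : K →+* Ω).comp (algebraMap (KB k b z) K) := rfl
      rw [h3]
      have h4 := hom_eval₂ (minpoly (KB k b z) a) (algebraMap (KB k b z) K) (ι : K →+* Ω) a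
      refine h4.symm.trans ?_
      rw [← aeval_def, minpoly.aeval, map_zero]
    exact (Polynomial.Separable.map (f := φ) h1).of_dvd (minpoly.dvd _ _ h2)

/-! ### (b2) -/

/-- **(b2a)**. -/
theorem FZ_map : FZ ((LB k b).map ι) (ι z) = (KB k b z).map ι := by
  apply le_antisymm
  · rw [FZ, IntermediateField.adjoin_le_iff]
    rintro x (hx | hx)
    · obtain ⟨a, ha, rfl⟩ := hx
      exact ⟨a, (IntermediateField.adjoin.mono k _ _ (Set.subset_insert z (Set.range b))) ha, rfl⟩
    · rw [Set.mem_singleton_iff] at hx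
      rw [hx]
      exact ⟨z, IntermediateField.subset_adjoin _ _ (Set.mem_insert _ _), rfl⟩
  · rw [KB, IntermediateField.adjoin_map, IntermediateField.adjoin_le_iff]
    rintro _ ⟨a, ha | ⟨i, rfl⟩, rfl⟩
    · rw [ha]
      exact TGL.Gal.z_mem_FZ _ _
    · exact TGL.Gal.le_FZ _ _ ⟨b i, IntermediateField.subset_adjoin _ _ ⟨i, rfl⟩, rfl⟩

/-- The restriction of `ι` to `L₀ = k(b)`. -/
noncomputable def ι₀ : LB k b →ₐ[k] Ω := ι.comp (LB k b).val

theorem ι₀_apply (a : LB k b) : ι₀ ι b a = ι a := rfl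

/-- **(b2b)**. -/
theorem ι₀_fieldRange : (ι₀ ι b).fieldRange = (LB k b).map ι := by
  ext x
  constructor
  · rintro ⟨a, rfl⟩
    exact ⟨a, a.2, rfl⟩
  · rintro ⟨a, ha, rfl⟩
    exact ⟨⟨a, ha⟩, rfl⟩

/-- **(b2c)**. -/
theorem LB_fg : (⊤ : IntermediateField k (LB k b)).FG :=
  IntermediateField.fg_top_iff.2
    (IntermediateField.essFiniteType_iff.2 (IntermediateField.fg_adjoin_of_finite (Set.finite_range b)))

/-- **(b2c)**. -/
theorem trdeg_LB (hb : AlgebraicIndependent k b) : Algebra.trdeg k (LB k b) = (m : Cardinal) := by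
  let b' : Fin m → LB k b := fun i => ⟨b i, IntermediateField.subset_adjoin _ _ ⟨i, rfl⟩⟩
  have hb' : AlgebraicIndependent k b' := by
    refine AlgebraicIndependent.of_comp (LB k b).val ?_
    exact hb
  apply le_antisymm
  · have h2 : IntermediateField.adjoin k (Set.range b') = ⊤ := by
      apply IntermediateField.map_injective (LB k b).val
      rw [IntermediateField.adjoin_map, ← Set.range_comp]
      have h3 : (LB k b).val ∘ b' = b := rfl
      rw [h3]
      ext x
      constructor
      · intro hx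
        exact ⟨⟨x, hx⟩, trivial, rfl⟩
      · rintro ⟨y, -, rfl⟩
        exact y.2
    have h6 := LU1.trdeg_le_of_isAlgebraic (k := k) (L := LB k b) (Set.range b') (by
      rw [h2]
      exact ⟨fun x => isAlgebraic_algebraMap (⟨x, trivial⟩ :
        (⊤ : IntermediateField k (LB k b)))⟩)
    refine h6.trans ?_
    have h7 := Cardinal.mk_range_le_lift (f := b')
    simpa using h7
  · have h8 := hb'.lift_cardinalMk_le_trdeg
    simpa using h8

/-- **(b2c)**. -/
theorem trdeg_map (E : IntermediateField k K) :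
    Algebra.trdeg k (E.map ι) = Algebra.trdeg k E :=
  (AlgEquiv.trdeg_eq (IntermediateField.equivMap E ι)).symm

/-- **(b2d)**. -/
theorem transcendental_map (hz : Transcendental (LB k b) z)
    (L : IntermediateField ((LB k b).map ι) Ω) (hL : Algebra.IsAlgebraic ((LB k b).map ι) L) :
    Transcendental (L.restrictScalars k) (ι z) := by
  intro h
  apply hz
  have h1 : IsAlgebraic L (ι z) := h
  have h2 : IsAlgebraic ((LB k b).map ι) (ι z) := h1.restrictScalars _
  let ψ : ((LB k b).map ι) →+* LB k b := ((IntermediateField.equivMap (LB k b) ι).symm :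
    ((LB k b).map ι) →+* LB k b)
  have hψ : ∀ a, ι (ψ a : LB k b) = (a : Ω) := by
    intro a
    have h3 := congrArg (fun t : (LB k b).map ι => (t : Ω))
      ((IntermediateField.equivMap (LB k b) ι).apply_symm_apply a)
    exact h3
  obtain ⟨P, hP, h0⟩ := h2
  refine ⟨P.map ψ, (Polynomial.map_ne_zero_iff ψ.injective).2 hP, ?_⟩
  apply ι.toRingHom.injective
  have h4 : (ι : K →+* Ω).comp ((algebraMap (LB k b) K).comp ψ) =
      algebraMap ((LB k b).map ι) Ω := RingHom.ext hψ
  rw [map_zero]
  change (ι : K →+* Ω) (aeval z (P.map ψ)) = 0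
  rw [aeval_def, eval₂_map, hom_eval₂, h4]
  exact h0

/-! ### (b3) -/

theorem isAlgebraic_trans' {E F : IntermediateField k K}
    (hF : ∀ a ∈ F, IsAlgebraic E a) {g : K} (hg : IsAlgebraic F g) : IsAlgebraic E g := by
  let M : IntermediateField k K := (algebraicClosure E K).restrictScalars k
  have hM : ∀ a, a ∈ M ↔ IsAlgebraic E a := fun a => by
    rw [IntermediateField.mem_restrictScalars, mem_algebraicClosure_iff]
  have hEM : E ≤ M := fun a ha => (hM a).2 (isAlgebraic_algebraMap (⟨a, ha⟩ : E))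
  have hFM : F ≤ M := fun a ha => (hM a).2 (hF a ha)
  let _ : Algebra F M := (IntermediateField.inclusion hFM).toRingHom.toAlgebra
  have _ : IsScalarTower F M K := IsScalarTower.of_algebraMap_eq fun _ => rfl
  have h1 : IsAlgebraic M g := hg.tower_top M
  let _ : Algebra E M := (IntermediateField.inclusion hEM).toRingHom.toAlgebra
  have _ : IsScalarTower E M K := IsScalarTower.of_algebraMap_eq fun _ => rfl
  have : Algebra.IsAlgebraic E M := ⟨fun e =>
    (isAlgebraic_algebraMap_iff (R := E) (A := K) (algebraMap M K).injective).1 ((hM e).1 e.2)⟩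
  exact h1.restrictScalars E

/-- The product of the model `PB` of `k(b)` with `⟨1, z⟩`. -/
noncomputable def PBz (Q : Submodule k (LB k b)) : Submodule k K :=
  Q.map (LB k b).val.toLinearMap * Submodule.span k {1, z}

theorem isModel_PBz {Q : Submodule k (LB k b)} (hQ : IsModel Q) : IsModel (PBz b z Q) := by
  refine IsModel.mul ⟨hQ.fg.map _, ?_⟩ ⟨Submodule.fg_span (Set.toFinite _), ?_⟩
  · intro h
    obtain ⟨a, ha, ha0⟩ := Submodule.exists_mem_ne_zero_of_ne_bot hQ.ne
    have h1 : (LB k b).val.toLinearMap a ∈ Q.map (LB k b).val.toLinearMap := ⟨a, ha, rfl⟩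
    rw [h, Submodule.mem_bot] at h1
    exact ha0 (Subtype.ext h1)
  · intro h
    have h1 : (1 : K) ∈ Submodule.span k ({1, z} : Set K) :=
      Submodule.subset_span (Set.mem_insert _ _)
    rw [h, Submodule.mem_bot] at h1
    exact one_ne_zero h1

theorem fin_PBz {Q : Submodule k (LB k b)} (hQ : IsModel Q) (hf : Fin' Q)
    (hfin : FiniteDimensional (KB k b z) K) : Fin' (PBz b z Q) := by
  set R : IntermediateField k K := IntermediateField.adjoin k
    {x : K | ∃ f ∈ PBz b z Q, ∃ g ∈ PBz b z Q, x = g / f} with hR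
  have h1 : (1 : K) ∈ Submodule.span k ({1, z} : Set K) :=
    Submodule.subset_span (Set.mem_insert _ _)
  have hz : z ∈ Submodule.span k ({1, z} : Set K) :=
    Submodule.subset_span (Set.mem_insert_of_mem _ rfl)
  have hmem : ∀ f ∈ Q, ∀ g ∈ Q, ((g / f : LB k b) : K) ∈ R := by
    intro f hf g hg
    refine IntermediateField.subset_adjoin _ _ ⟨(f : K) * 1, Submodule.mul_mem_mul ⟨f, hf, rfl⟩ h1,
      (g : K) * 1, Submodule.mul_mem_mul ⟨g, hg, rfl⟩ h1, ?_⟩
    rw [mul_one, mul_one]
    rfl
  have hzR : z ∈ R := by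
    obtain ⟨a, ha, ha0⟩ := Submodule.exists_mem_ne_zero_of_ne_bot hQ.ne
    have ha0' : (a : K) ≠ 0 := fun h => ha0 (Subtype.ext h)
    refine IntermediateField.subset_adjoin _ _ ⟨(a : K) * 1, Submodule.mul_mem_mul ⟨a, ha, rfl⟩ h1,
      (a : K) * z, Submodule.mul_mem_mul ⟨a, ha, rfl⟩ hz, ?_⟩
    rw [mul_one, mul_div_cancel_left₀ _ ha0']
  -- the elements of `k(b)` are algebraic over `R`
  have hLB : ∀ a ∈ LB k b, IsAlgebraic R a := by
    intro a ha
    have h2 : IsAlgebraic (IntermediateField.adjoin k {x : LB k b | ∃ f ∈ Q, ∃ g ∈ Q, x = g / f})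
      (⟨a, ha⟩ : LB k b) := hf.isAlgebraic _
    have hle : ∀ x ∈ IntermediateField.adjoin k {x : LB k b | ∃ f ∈ Q, ∃ g ∈ Q, x = g / f},
        (x : K) ∈ R := by
      intro x hx
      have h3 : IntermediateField.adjoin k {x : LB k b | ∃ f ∈ Q, ∃ g ∈ Q, x = g / f} ≤
          R.comap (LB k b).val := by
        rw [IntermediateField.adjoin_le_iff]
        rintro x ⟨f, hf, g, hg, rfl⟩
        exact hmem f hf g hg
      exact h3 hx
    let φ : IntermediateField.adjoin k {x : LB k b | ∃ f ∈ Q, ∃ g ∈ Q, x = g / f} →+* R :=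
      { toFun := fun x => ⟨((x : LB k b) : K), hle x x.2⟩
        map_one' := rfl
        map_zero' := rfl
        map_mul' := fun _ _ => rfl
        map_add' := fun _ _ => rfl }
    obtain ⟨P, hP, h0⟩ := h2
    refine ⟨P.map φ, (Polynomial.map_ne_zero_iff φ.injective).2 hP, ?_⟩
    have h4 := congrArg (algebraMap (LB k b) K) h0
    rw [map_zero, aeval_def, hom_eval₂] at h4
    rw [aeval_def, eval₂_map]
    exact h4
  have hKB : ∀ a ∈ KB k b z, IsAlgebraic R a := by
    intro a ha
    let M : IntermediateField k K := (algebraicClosure R K).restrictScalars k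
    have hM : ∀ a, a ∈ M ↔ IsAlgebraic R a := fun a => by
      rw [IntermediateField.mem_restrictScalars, mem_algebraicClosure_iff]
    have h5 : KB k b z ≤ M := by
      rw [KB, IntermediateField.adjoin_le_iff]
      rintro x (hx | ⟨i, rfl⟩)
      · rw [hx]
        exact (hM z).2 (isAlgebraic_algebraMap (⟨z, hzR⟩ : R))
      · exact (hM _).2 (hLB _ (IntermediateField.subset_adjoin _ _ ⟨i, rfl⟩))
    exact (hM a).1 (h5 ha)
  refine ⟨fun a => isAlgebraic_trans' hKB ?_⟩
  have : Algebra.IsAlgebraic (KB k b z) K := Algebra.IsAlgebraic.of_finite _ _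
  exact this.isAlgebraic a

theorem map_PBz (Q : Submodule k (LB k b)) :
    (PBz b z Q).map ι.toLinearMap =
      Q.map (ι₀ ι b).toLinearMap * Submodule.span k {1, ι z} := by
  rw [PBz, Submodule.map_mul, ← Submodule.map_comp, Submodule.map_span, Set.image_pair]
  have h1 : ι.toLinearMap 1 = 1 := map_one ι
  rw [h1]
  rfl

/-! ### (b4) -/

/-- The coordinates `ι(b), ι(z)`. -/
noncomputable def tt : Fin (m + 1) → Ω := fun j => ι ((Fin.snoc b z : Fin (m + 1) → K) j)

omit [Field K] in
theorem range_snoc : Set.range (Fin.snoc b z : Fin (m + 1) → K) = insert z (Set.range b) := by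
  ext x
  constructor
  · rintro ⟨j, rfl⟩
    refine Fin.lastCases ?_ (fun i => ?_) j
    · rw [Fin.snoc_last]
      exact Set.mem_insert _ _
    · rw [Fin.snoc_castSucc]
      exact Set.mem_insert_of_mem _ ⟨i, rfl⟩
  · rintro (rfl | ⟨i, rfl⟩)
    · exact ⟨Fin.last m, by rw [Fin.snoc_last]⟩
    · exact ⟨i.castSucc, by rw [Fin.snoc_castSucc]⟩

theorem algInd_tt (hb : AlgebraicIndependent k b) (hz : Transcendental (LB k b) z) :
    AlgebraicIndependent k (tt ι b z) := by
  have h1 := TG.algInd_tt hb hz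
  have h2 : TG.tt b z ∘ finSuccEquivLast = (Fin.snoc b z : Fin (m + 1) → K) := by
    funext j
    refine Fin.lastCases ?_ (fun i => ?_) j
    · simp [TG.tt]
    · simp [TG.tt]
  have h3 := h1.comp finSuccEquivLast finSuccEquivLast.injective
  rw [h2] at h3
  exact h3.map' ι.toRingHom.injective

theorem fracIs_tt : FracIs (TGBh66.PR k (tt ι b z)) (FZ ((LB k b).map ι) (ι z)) := by
  have h1 : FZ ((LB k b).map ι) (ι z) = IntermediateField.adjoin k (Set.range (tt ι b z)) := by
    have h2 : Set.range (tt ι b z) = ι '' (insert z (Set.range b)) := by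
      rw [← range_snoc, ← Set.range_comp]
      rfl
    rw [FZ_map, KB, IntermediateField.adjoin_map, h2]
  rw [h1]
  refine ⟨fun f hf => IntermediateField.algebra_adjoin_le_adjoin k _ hf, fun g hg => ?_⟩
  obtain ⟨a, ha, c, hc, hac⟩ := IntermediateField.mem_adjoin_iff_div.1 hg
  by_cases h0 : c = 0
  · refine ⟨0, Subalgebra.zero_mem _, 1, Subalgebra.one_mem _, one_ne_zero, ?_⟩
    rw [hac, h0, div_zero, zero_div]
  · exact ⟨a, ha, c, hc, h0, hac⟩

end Step

end Pool.Agent.TGL2
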