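import Pool.Agent.Lib.TGL_h2.IndB

/-!
# TANK G, TRACK L, row IND-B in the form used by `ind_at` (helper18's statements)
-/

set_option autoImplicit false

open Polynomial

namespace Pool.Agent.TGL2B

open Pool.Agent.LU1 (FracIs fixO)
open Pool.Agent.TGL (FZ)
open Pool.Agent.TG (LB KB IsModel Fin')
open Pool.Agent.TGBh66 (PR)

universe u

variable {k Ω : Type u} [Field k] [Field Ω] [Algebra k Ω]

theorem exists_gal [IsAlgClosed Ω] {F E : IntermediateField k Ω} (hFE : F ≤ E)
    (hfin : ∃ T : Finset Ω, E = IntermediateField.adjoin k ((F : Set Ω) ∪ T) ∧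
      ∀ t ∈ T, IsAlgebraic F t)
    (hsep : ∀ e ∈ E, IsSeparable F e) : ∃ (N : IntermediateField F Ω), FiniteDimensional F N ∧
      IsGalois F N ∧ (∀ e ∈ E, e ∈ N) ∧ ∃ H : Subgroup (N ≃ₐ[F] N), fixO F N H = E := by
  obtain ⟨T, hT, -⟩ := hfin
  obtain ⟨N, h1, h2, h3, H, h4, -⟩ := TGL2.exists_gal hFE T (fun t ht => by
      rw [hT]
      exact IntermediateField.subset_adjoin _ _ (Or.inr ht)) (fun e he => by
      have h5 : E ≤ (IntermediateField.adjoin F (T : Set Ω)).restrictScalars k := by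
        rw [hT, IntermediateField.adjoin_le_iff]
        rintro x (hx | hx)
        · exact IntermediateField.algebraMap_mem (IntermediateField.adjoin F (T : Set Ω)) ⟨x, hx⟩
        · exact IntermediateField.subset_adjoin F _ hx
      exact h5 he) hsep
  exact ⟨N, h1, h2, h3, H, h4⟩

variable {K : Type u} [Field K] [Algebra k K] {m : ℕ} {b : Fin m → K} {z : K}

theorem exists_galK [IsAlgClosed Ω] (ι : K →ₐ[k] Ω) [hfin : FiniteDimensional (KB k b z) K]
    [hsep : Algebra.IsSeparable (KB k b z) K] {F : IntermediateField k Ω}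
    (hF : F = (KB k b z).map ι) :
    ∃ (N : IntermediateField F Ω), FiniteDimensional F N ∧
      IsGalois F N ∧ ∃ H : Subgroup (N ≃ₐ[F] N), fixO F N H = ι.fieldRange := by
  subst hF
  obtain ⟨N, h1, h2, -, H, h4, -⟩ := TGL2.exists_gal' ι b z hfin hsep
  exact ⟨N, h1, h2, H, h4⟩

theorem FZ_eq (ι : K →ₐ[k] Ω) : FZ ((LB k b).map ι) (ι z) = (KB k b z).map ι :=
  TGL2.FZ_map ι b z

theorem range_eq (ι : K →ₐ[k] Ω) (E : IntermediateField k K) :
    (ι.comp E.val).fieldRange = E.map ι := by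
  ext x
  constructor
  · rintro ⟨a, rfl⟩
    exact ⟨a, a.2, rfl⟩
  · rintro ⟨a, ha, rfl⟩
    exact ⟨⟨a, ha⟩, rfl⟩

theorem trdeg_LB (hb : AlgebraicIndependent k b) :
    Algebra.trdeg k (LB k b) = m := TGL2.trdeg_LB b hb

theorem trdeg_map (ι : K →ₐ[k] Ω) (E : IntermediateField k K) :
    Algebra.trdeg k (E.map ι) = Algebra.trdeg k E := TGL2.trdeg_map ι E

theorem transc (ι : K →ₐ[k] Ω) (hz : Transcendental (LB k b) z) {L₀ : IntermediateField k Ω}
    (hL₀ : L₀ = (LB k b).map ι) (L : IntermediateField L₀ Ω) [hL : Algebra.IsAlgebraic L₀ L] :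
    Transcendental (L.restrictScalars k) (ι z) := by
  subst hL₀
  exact TGL2.transcendental_map ι b z hz L hL

theorem fg_LB : (⊤ : IntermediateField k (LB k b)).FG := TGL2.LB_fg b

theorem isModel_mul {PB : Submodule k (LB k b)} (h : IsModel PB) :
    IsModel (PB.map (LB k b).val.toLinearMap * Submodule.span k {1, z}) :=
  TGL2.isModel_PBz b z h

theorem fin_mul {PB : Submodule k (LB k b)} (h : IsModel PB) (hf : Fin' PB)
    [hfin : FiniteDimensional (KB k b z) K] :
    Fin' (PB.map (LB k b).val.toLinearMap * Submodule.span k {1, z}) :=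
  TGL2.fin_PBz b z h hf hfin

theorem map_mul_span (ι : K →ₐ[k] Ω) (PB : Submodule k (LB k b)) :
    (PB.map (LB k b).val.toLinearMap * Submodule.span k {1, z}).map ι.toLinearMap =
      PB.map (ι.comp (LB k b).val).toLinearMap * Submodule.span k {1, ι z} :=
  TGL2.map_PBz ι b z PB

omit [Field K] in
theorem range_cons : Set.range (Fin.cons z b : Fin (m + 1) → K) = insert z (Set.range b) := by
  ext x
  constructor
  · rintro ⟨j, rfl⟩
    refine Fin.cases ?_ (fun i => ?_) j
    · rw [Fin.cons_zero]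
      exact Set.mem_insert _ _
    · rw [Fin.cons_succ]
      exact Set.mem_insert_of_mem _ ⟨i, rfl⟩
  · rintro (rfl | ⟨i, rfl⟩)
    · exact ⟨0, by rw [Fin.cons_zero]⟩
    · exact ⟨i.succ, by rw [Fin.cons_succ]⟩

theorem ind_tt (ι : K →ₐ[k] Ω) (hb : AlgebraicIndependent k b) (hz : Transcendental (LB k b) z) :
    AlgebraicIndependent k (fun j => ι ((Fin.cons z b : Fin (m + 1) → K) j)) := by
  have h1 := TG.algInd_tt hb hz
  have h2 : TG.tt b z ∘ finSuccEquiv m = (Fin.cons z b : Fin (m + 1) → K) := by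
    funext j
    refine Fin.cases ?_ (fun i => ?_) j
    · simp [TG.tt]
    · simp [TG.tt]
  have h3 := h1.comp (finSuccEquiv m) (finSuccEquiv m).injective
  rw [h2] at h3
  exact h3.map' ι.toRingHom.injective

theorem frac_tt (ι : K →ₐ[k] Ω) :
    FracIs (PR k (fun j => ι ((Fin.cons z b : Fin (m + 1) → K) j))) ((KB k b z).map ι) := by
  have h2 : Set.range (fun j => ι ((Fin.cons z b : Fin (m + 1) → K) j)) =
      ι '' (insert z (Set.range b)) := by
    rw [← range_cons, ← Set.range_comp]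
    rfl
  have h1 : (KB k b z).map ι = IntermediateField.adjoin k
      (Set.range (fun j => ι ((Fin.cons z b : Fin (m + 1) → K) j))) := by
    rw [KB, IntermediateField.adjoin_map, h2]
  rw [h1]
  refine ⟨fun f hf => IntermediateField.algebra_adjoin_le_adjoin k _ hf, fun g hg => ?_⟩
  obtain ⟨a, ha, c, hc, hac⟩ := IntermediateField.mem_adjoin_iff_div.1 hg
  by_cases h0 : c = 0
  · refine ⟨0, Subalgebra.zero_mem _, 1, Subalgebra.one_mem _, one_ne_zero, ?_⟩
    rw [hac, h0, div_zero, zero_div]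
  · exact ⟨a, ha, c, hc, h0, hac⟩

end Pool.Agent.TGL2B
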